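import Pool.Agent.Q267.E8.Stm2

/-!
# Project E8 (helper267), second part, lemma `S_PE` (by helper181)
-/

set_option autoImplicit false

namespace Pool.Agent.Q181.E8

open Finset Pool.Agent.Q267.CDE Pool.Agent.Q267.E8

variable (p : ℕ) [hp : Fact p.Prime]

theorem fact_unit (k : ℕ) (hk : k < p) : IsUnit ((k.factorial : ℕ) : R p) := by
  induction k with
  | zero => simp
  | succ k ih =>
    rw [Nat.factorial_succ]
    push_cast
    have h1 := isUnit_nat p (k + 1) (by omega) hk
    push_cast at h1
    exact h1.mul (ih (by omega))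

theorem inv_fact (k : ℕ) (hk : k < p) : ((k.factorial : ℕ) : R p) * ((k.factorial : ℕ) : R p)⁻¹ = 1 :=
  ZMod.mul_inv_of_unit _ (fact_unit p k hk)

theorem bR_succ (x : R p) (k : ℕ) (hk : k + 1 < p) : bR p x (k + 1) * ((k : R p) + 1) = bR p x k * (x - k) := by
  unfold bR
  have h1 := inv_fact p k (by omega)
  have h2 := inv_fact p (k + 1) hk
  rw [prod_range_succ]
  rw [Nat.factorial_succ] at h2 ⊢
  push_cast at h2 ⊢
  set a := ∏ i ∈ range k, (x - (i : R p))
  set f := ((k.factorial : ℕ) : R p)
  set g := (((k : R p) + 1) * f)⁻¹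
  linear_combination (a * (x - k) * f⁻¹) * h2 - (a * (x - k) * g * ((k : R p) + 1)) * h1

theorem bR_nat (y k : ℕ) (hk : k < p) (hky : k ≤ y) : bR p (y : R p) k = ((y.choose k : ℕ) : R p) := by
  unfold bR
  have h1 := inv_fact p k hk
  have h2 : ∏ i ∈ range k, ((y : R p) - (i : R p)) = ((y.descFactorial k : ℕ) : R p) := by
    rw [Nat.descFactorial_eq_prod_range]
    push_cast
    refine prod_congr rfl (fun i hi => ?_)
    rw [mem_range] at hi
    rw [Nat.cast_sub (by omega)]
  rw [h2, Nat.descFactorial_eq_factorial_mul_choose]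
  push_cast
  linear_combination (((y.choose k : ℕ) : R p)) * h1

/-- Vandermonde -/
theorem vand (y k : ℕ) (hk : k < p) (hky : k ≤ y) :
    ∑ j ∈ range (k + 1), ((k.choose j : ℕ) : R p) * bR p (y : R p) j = bR p ((y : R p) + k) k := by
  have h1 : bR p ((y : R p) + k) k = (((y + k).choose k : ℕ) : R p) := by
    have := bR_nat p (y + k) k hk (by omega)
    push_cast at this
    exact this
  rw [h1, Nat.add_choose_eq, Finset.Nat.sum_antidiagonal_eq_sum_range_succ_mk]
  push_cast
  refine sum_congr rfl (fun j hj => ?_)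
  rw [mem_range] at hj
  rw [bR_nat p y j (by omega) (by omega), Nat.choose_symm (by omega : j ≤ k), mul_comm]

/-- reflection -/
theorem refl (y z : R p) (k : ℕ) (h : z = k - 1 - y) : bR p y k = (-1) ^ k * bR p z k := by
  unfold bR
  have h2 : ∏ i ∈ range k, (y - (i : R p)) = (-1) ^ k * ∏ i ∈ range k, (z - (i : R p)) := by
    rw [← prod_range_reflect (fun i => y - (i : R p))]
    have e : ((-1 : R p)) ^ k = ∏ _i ∈ range k, (-1 : R p) := by rw [prod_const, card_range]
    rw [e, ← prod_mul_distrib]
    refine prod_congr rfl (fun i hi => ?_)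
    rw [mem_range] at hi
    rw [Nat.sub_sub, Nat.cast_sub (by omega), h]
    push_cast
    ring
  rw [h2]
  ring

theorem left_term (n : ℕ) (h : R p) (hh : 2 * h = 1) (hn : 2 * n < p) (j : ℕ) (hj : j ≤ n) :
    (((2 * n).choose (2 * j) : ℕ) : R p) * ((j.centralBinom : ℕ) : R p) * (h ^ 2) ^ j =
      ((n.choose j : ℕ) : R p) * bR p (n - h) j := by
  induction j with
  | zero => simp [bR]
  | succ j ih =>
    have ih := ih (by omega)
    have a1 := Nat.choose_succ_right_eq (2 * n) (2 * j)
    have a2 := Nat.choose_succ_right_eq (2 * n) (2 * j + 1)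
    have a3 := Nat.succ_mul_centralBinom_succ j
    have a4 := Nat.choose_succ_right_eq n j
    have b1 := congrArg (Nat.cast : ℕ → R p) a1
    have b2 := congrArg (Nat.cast : ℕ → R p) a2
    have b3 := congrArg (Nat.cast : ℕ → R p) a3
    have b4 := congrArg (Nat.cast : ℕ → R p) a4
    rw [Nat.cast_mul, Nat.cast_mul, Nat.cast_sub (by omega)] at b1
    rw [Nat.cast_mul, Nat.cast_mul, Nat.cast_sub (by omega)] at b2
    rw [Nat.cast_mul, Nat.cast_mul, Nat.cast_sub (by omega)] at b4
    have b5 := bR_succ p ((n : R p) - h) j (by omega)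
    push_cast at b1 b2 b3 b4
    have hu : IsUnit ((j : R p) + 1) := by
      have := isUnit_nat p (j + 1) (by omega) (by omega)
      push_cast at this
      exact this
    have hu2 : IsUnit (2 * (j : R p) + 1) := by
      have := isUnit_nat p (2 * j + 1) (by omega) (by omega)
      push_cast at this
      exact this
    have hu3 : IsUnit (2 : R p) := IsUnit.of_mul_eq_one h hh
    apply (hu.mul (hu.mul (hu2.mul hu3))).mul_right_cancel
    rw [show 2 * (j + 1) = 2 * j + 1 + 1 by ring, pow_succ (h ^ 2) j]
    set A := (((2 * n).choose (2 * j + 1 + 1) : ℕ) : R p)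
    set A1 := (((2 * n).choose (2 * j + 1) : ℕ) : R p)
    set A0 := (((2 * n).choose (2 * j) : ℕ) : R p)
    set B := (((j + 1).centralBinom : ℕ) : R p)
    set B0 := ((j.centralBinom : ℕ) : R p)
    set C := ((n.choose (j + 1) : ℕ) : R p)
    set C0 := ((n.choose j : ℕ) : R p)
    set D := bR p ((n : R p) - h) (j + 1)
    set D0 := bR p ((n : R p) - h) j
    set H := (h ^ 2) ^ j
    set J := (j : R p)
    set N := (n : R p)
    -- A (2J+2) = A1 (2N - 2J - 1), A1 (2J+1) = A0 (2N - 2J), (J+1) B = 2 (2J+1) B0
    have c1 : A * (2 * (J + 1)) = A1 * (2 * N - (2 * J + 1)) := by linear_combination b2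
    have c2 : A1 * (2 * J + 1) = A0 * (2 * N - 2 * J) := by linear_combination b1
    have c3 : (J + 1) * B = 2 * (2 * J + 1) * B0 := by linear_combination b3
    have c4 : C * (J + 1) = C0 * (N - J) := by linear_combination b4
    have c5 : D * (J + 1) = D0 * (N - h - J) := b5
    calc A * B * (H * h ^ 2) * ((J + 1) * ((J + 1) * ((2 * J + 1) * 2)))
        = (A * (2 * (J + 1))) * ((J + 1) * B) * (2 * J + 1) * (H * h ^ 2) := by ring
      _ = (A1 * (2 * J + 1)) * (2 * N - (2 * J + 1)) * (2 * (2 * J + 1) * B0) * (H * h ^ 2) := by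
          rw [c1, c3]; ring
      _ = (A0 * B0 * H) * ((2 * N - 2 * J) * h) * ((2 * N - (2 * J + 1)) * h) * (2 * (2 * J + 1)) := by
          rw [c2]; ring
      _ = (C0 * D0) * (N - J) * (N - h - J) * (2 * (2 * J + 1)) := by
          rw [ih]
          have e1 : (2 * N - 2 * J) * h = N - J := by linear_combination (N - J) * hh
          have e2 : (2 * N - (2 * J + 1)) * h = N - h - J := by linear_combination (N - J) * hh
          rw [e1, e2]
      _ = (C * (J + 1)) * (D * (J + 1)) * (2 * (2 * J + 1)) := by rw [c4, c5]; ring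
      _ = _ := by ring

open Pool.Agent.Q267.MW in
theorem pe : S_PE := by
  intro p n hpr h hh hn
  rcases Nat.eq_zero_or_pos n with h0 | hpos
  · subst h0; simp [bR]
  have hp2 : p ≠ 2 := by omega
  have hodd : p % 2 = 1 := by
    rcases hpr.out.eq_two_or_odd with h | h
    · exact absurd h hp2
    · exact h
  -- -h = N with N = (p^2-1)/2
  obtain ⟨N, hN⟩ : ∃ N : ℕ, p ^ 2 = 2 * N + 1 := ⟨(p ^ 2 - 1) / 2, by
    have : p ^ 2 % 2 = 1 := by rw [Nat.pow_mod, hodd]
    omega⟩
  have hNR : (N : R p) = -h := by
    have h1 : ((2 * N + 1 : ℕ) : R p) = 0 := by rw [← hN]; exact ZMod.natCast_self _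
    push_cast at h1
    linear_combination h * h1 - (N : R p) * hh
  have hNp : p ≤ N + 1 := by
    have : 3 ≤ p := by have := hpr.out.two_le; omega
    nlinarith
  have hx : ((n + N : ℕ) : R p) = n - h := by push_cast; rw [hNR]; ring
  calc ∑ j ∈ range (n + 1), (((2 * n).choose (2 * j) : ℕ) : R p) * ((j.centralBinom : ℕ) : R p) * (h ^ 2) ^ j *
        2 ^ (n - j)
      = ∑ j ∈ range (n + 1), ∑ k ∈ range (n + 1), if j ≤ k then ((n.choose k : ℕ) : R p) * (((k.choose j : ℕ) : R p) *
          bR p (n - h) j) else 0 := by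
        refine sum_congr rfl (fun j hj => ?_)
        rw [mem_range] at hj
        rw [left_term p n h hh hn j (by omega)]
        have e1 : (2 : R p) ^ (n - j) = ∑ i ∈ range (n - j + 1), (((n - j).choose i : ℕ) : R p) := by
          have := Nat.sum_range_choose (n - j)
          have := congrArg (Nat.cast : ℕ → R p) this
          push_cast at this
          exact this.symm
        rw [e1, mul_sum, ← sum_filter]
        symm
        refine sum_bij' (fun k _ => k - j) (fun i _ => i + j) ?_ ?_ ?_ ?_ ?_
        · intro k hk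
          simp only [mem_filter, mem_range] at hk ⊢
          omega
        · intro i hi
          simp only [mem_filter, mem_range] at hi ⊢
          omega
        · intro k hk
          simp only [mem_filter, mem_range] at hk
          omega
        · intro i hi
          simp
        · intro k hk
          simp only [mem_filter, mem_range] at hk
          have e2 := Nat.choose_mul (n := n) (k := k) (s := j) (by omega)
          have e3 := congrArg (Nat.cast : ℕ → R p) e2
          push_cast at e3
          linear_combination (bR p (n - h) j) * e3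
    _ = ∑ k ∈ range (n + 1), ∑ j ∈ range (n + 1), if j ≤ k then ((n.choose k : ℕ) : R p) * (((k.choose j : ℕ) : R p) *
          bR p (n - h) j) else 0 := sum_comm
    _ = ∑ k ∈ range (n + 1), ((n.choose k : ℕ) : R p) * bR p (n - h + k) k := by
        refine sum_congr rfl (fun k hk => ?_)
        rw [mem_range] at hk
        rw [← hx, ← vand p (n + N) k (by omega) (by omega), mul_sum, ← sum_filter]
        refine sum_congr ?_ (fun j _ => rfl)
        ext j
        simp only [mem_filter, mem_range]
        omega
    _ = _ := by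
        refine sum_congr rfl (fun k hk => ?_)
        rw [refl p (n - h + k) (-n - h) k (by linear_combination -hh)]
        ring

end Pool.Agent.Q181.E8
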